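import Pool.Agent.Helper82.NQ.St2

/-! # Project NQ: module PRD (products of odd primes) -/

set_option autoImplicit false

namespace Pool.Agent.Helper36.NQ

open Finset
open Pool.Agent.Helper82.NQ

/-- the first odd primes -/
private def L : List ℕ := [3, 5, 7, 11, 13, 17, 19, 23, 29, 31]

private theorem cnt (j : ℕ) (hj : j ≤ 9) :
    ((range (L.getD j 0)).filter (fun p => p.Prime ∧ p % 2 = 1)).card ≤ j := by
  interval_cases j <;> decide

private theorem step (j : ℕ) (hj : j ≤ 9) :
    (L.take (j + 1)).prod = (L.take j).prod * L.getD j 0 := by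
  interval_cases j <;> rfl

private theorem main (j : ℕ) : ∀ S : Finset ℕ, (∀ p ∈ S, p.Prime ∧ Odd p) → j ≤ S.card → j ≤ 10 →
    (L.take j).prod ≤ ∏ p ∈ S, p := by
  induction j with
  | zero =>
    intro S hS _ _
    rw [List.take_zero, List.prod_nil]
    exact Nat.one_le_iff_ne_zero.2 (Finset.prod_ne_zero_iff.2 fun p hp => (hS p hp).1.ne_zero)
  | succ j ih =>
    intro S hS hc hj
    have hne : S.Nonempty := by
      rw [← Finset.card_pos]
      omega
    have hM := S.max'_mem hne
    obtain ⟨M, hMe⟩ : ∃ M, M = S.max' hne := ⟨_, rfl⟩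
    rw [← hMe] at hM
    rw [step j (by omega), ← Finset.prod_erase_mul S (fun p => p) hM]
    refine Nat.mul_le_mul (ih _ (fun p hp => hS p (Finset.mem_of_mem_erase hp)) ?_ (by omega)) ?_
    · rw [Finset.card_erase_of_mem hM]
      omega
    · by_contra hlt
      push Not at hlt
      have hsub : S ⊆ (range (L.getD j 0)).filter (fun p => p.Prime ∧ p % 2 = 1) := by
        intro p hp
        rw [Finset.mem_filter, Finset.mem_range]
        refine ⟨?_, (hS p hp).1, Nat.odd_iff.1 (hS p hp).2⟩
        have := S.le_max' p hp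
        omega
      have := (Finset.card_le_card hsub).trans (cnt j (by omega))
      omega

/-- MODULE PRD. -/
theorem hPRD : StPRD := fun S j hS hc hj => main j S hS hc hj

end Pool.Agent.Helper36.NQ
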